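import Pool.Agent.ZStr.EZ

/-!
# EZ-structures for groups commensurating a subgroup with an EZ-structure

The equivariant version of the extension theorem: if conjugation by the elements of `G` extends
to the boundary of `N`, and the action of `G` on `Y` extends to its compactification, then `G`
admits an EZ-structure.
-/

namespace Pool.Agent.Results.MP_b6d158_gt.CommensuratedEZ

open Pool.Agent.ZStr

/-- THE EXTENSION THEOREM FOR EZ-STRUCTURES. -/
theorem result {G : Type*} [Group G] (hG : TypeFStarAR G) (N : Subgroup G)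
    (X : Type) [MetricSpace X] [MulAction N X] [IsIsometricSMul N X]
    (hpX : ProperlyActs N X) (hcX : CocompactlyActs N X)
    (Xb : Type) [TopologicalSpace Xb] (iX : X → Xb) (hX : IsModelZGeometry X Xb iX) (x0 : X)
    (hconj : ConjugationExtends N iX x0)
    (Y : Type) [MetricSpace Y] [MulAction G Y] [IsIsometricSMul G Y]
    (Yb : Type) [TopologicalSpace Yb] (iY : Y → Yb) (hY : IsModelZGeometry Y Yb iY)
    (hYext : ∀ g : G, ∃ f : Yb → Yb, Continuous f ∧ ∀ y, f (iY y) = iY (g • y))
    (hcoc : CocompactlyActs G Y) (y0 : Y)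
    (hbdd : ∃ C : ℝ, ∀ n ∈ N, dist (n • y0) y0 ≤ C)
    (hfin : ∀ r : ℝ, ∃ F : Finset G, ∀ g : G, dist (g • y0) y0 ≤ r → ∃ f ∈ F, f⁻¹ * g ∈ N) :
    HasEZStructure G :=
  ez_extension hG N X hpX hcX Xb iX hX x0 hconj Y Yb iY hY hYext hcoc y0 hbdd hfin

end Pool.Agent.Results.MP_b6d158_gt.CommensuratedEZ
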