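import Pool.Agent.ZStr.Main

/-!
# Z-structures for groups commensurating a subgroup with a Z-structure

Let `G` be a group of type `F*_AR` acting cocompactly by isometries on a space `Y` with a model
Z-geometry, with coarse stabilizers commensurable to a subgroup `N`.  If `N` admits a
Z-structure, so does `G`.
-/

namespace Pool.Agent.Results.MP_b6d158_gt.CommensuratedZ

open Pool.Agent.ZStr

/-- THE EXTENSION THEOREM FOR Z-STRUCTURES. -/
theorem result {G : Type*} [Group G] (hG : TypeFStarAR G) (N : Subgroup G)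
    (hN : HasZStructure N)
    (Y : Type) [MetricSpace Y] [MulAction G Y] [IsIsometricSMul G Y]
    (Yb : Type) [TopologicalSpace Yb] (i : Y → Yb) (hY : IsModelZGeometry Y Yb i)
    (hcoc : CocompactlyActs G Y) (y0 : Y)
    (hbdd : ∃ C : ℝ, ∀ n ∈ N, dist (n • y0) y0 ≤ C)
    (hfin : ∀ r : ℝ, ∃ F : Finset G, ∀ g : G, dist (g • y0) y0 ≤ r → ∃ f ∈ F, f⁻¹ * g ∈ N) :
    HasZStructure G :=
  extension_theorem hG N hN Y Yb i hY hcoc y0 hbdd hfin

end Pool.Agent.Results.MP_b6d158_gt.CommensuratedZ
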