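import Pool.Agent.ZStr.RelMain

/-!
# EZ-structures for groups with a commensurated virtually polycyclic subgroup

If a group `G` acts cocompactly by isometries on a space `Y` with a model Z-geometry, every
element extending to the compactification, and if the coarse stabilizers of this action are
commensurable to a virtually polycyclic subgroup `N`, then `G` admits an EZ-structure.
-/

namespace Pool.Agent.Results.MP_b6d158_gt.PolycyclicEZ

open Pool.Agent.ZStr

/-- EZ-STRUCTURES AND VIRTUALLY POLYCYCLIC COARSE STABILIZERS. -/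
theorem result {G : Type*} [Group G] (N : Subgroup G) (hN : IsVirtuallyPolycyclic N)
    (Y : Type) [MetricSpace Y] [MulAction G Y] [IsIsometricSMul G Y]
    (Yb : Type) [TopologicalSpace Yb] (iY : Y → Yb) (hY : IsModelZGeometry Y Yb iY)
    (hYext : ∀ g : G, ∃ f : Yb → Yb, Continuous f ∧ ∀ y, f (iY y) = iY (g • y))
    (hcoc : CocompactlyActs G Y) (y0 : Y)
    (hbdd : ∃ C : ℝ, ∀ n ∈ N, dist (n • y0) y0 ≤ C)
    (hfin : ∀ r : ℝ, ∃ F : Finset G, ∀ g : G, dist (g • y0) y0 ≤ r → ∃ f ∈ F, f⁻¹ * g ∈ N) :
    HasEZStructure G :=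
  ez_of_rel_virtually_polycyclic N hN
    ⟨Y, inferInstance, inferInstance, Yb, inferInstance, iY, y0, hY, inferInstance, hcoc,
      ⟨hbdd, hfin⟩, hYext⟩

end Pool.Agent.Results.MP_b6d158_gt.PolycyclicEZ
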